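import Pool.Agent.Lib.MP_4785e6_an.FiveQMain

/-!
# Non-statistical dynamics in the quadratic Hénon family: the window of parameters

The definitions are in `Pool/Agent/Lib/MP_4785e6_an/Defs.lean`.
-/

set_option autoImplicit false

namespace Pool.Agent.Results.MP_4785e6_an.FiveQuarters

open Filter Topology MeasureTheory Set Pool.Agent.Lib.MP_4785e6_an
  Pool.Agent.Lib.MP_4785e6_an.Meas Pool.Agent.Lib.MP_4785e6_an.Orbit

theorem bounded_iff {a c : ℝ} {z : ℝ × ℝ} :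
    Bornology.IsBounded (range fun n => (henon a c)^[n] z) ↔ z ∈ Bd a c := by
  constructor
  · intro h
    obtain ⟨M, hM⟩ := h.exists_norm_le
    refine ⟨M, fun n => ?_⟩
    have h1 := hM _ (mem_range_self n)
    rw [Prod.norm_def] at h1
    exact (le_max_left _ _).trans h1
  · rintro ⟨M, hM⟩
    obtain ⟨T, hT, hT'⟩ := bdd_compact hM
    refine hT.isBounded.subset ?_
    rintro _ ⟨n, rfl⟩
    exact hT' n

/-- Localisation of the question. -/
theorem result :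
    (∀ a c : ℝ, MeasurableSet (NS a c)) ∧
    (∀ a c : ℝ, a ≠ 0 → a ^ 2 ≠ 1 → volume (NS a c) = 0 ∨ volume (NS a c) = ⊤) ∧
    (∀ a c : ℝ, 1 < a ^ 2 ∨ (a ≠ 0 ∧ c < -(2 + √2) * (1 + a ^ 2) ^ 2) →
      volume {z | Bornology.IsBounded (range fun n => (henon a c)^[n] z)} = 0 ∧
      volume (NS a c) = 0) ∧
    (∀ a c : ℝ, a ≠ 0 → a ^ 2 < 1 → -(5 / 4) * (1 - a ^ 2) ^ 2 ≤ c → NS a c = ∅ ∧
      ∀ z, Bornology.IsBounded (range fun n => (henon a c)^[n] z) →
        ∃ w, henon a c (henon a c w) = w ∧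
          Tendsto (fun n => (henon a c)^[2 * n] z) atTop (𝓝 w)) ∧
    (Question ↔ ∃ E : Set (ℝ × ℝ), LocallyDense E ∧ ∀ p ∈ E, p.1 ^ 2 < 1 ∧
      -(2 + √2) * (1 + p.1 ^ 2) ^ 2 ≤ p.2 ∧ p.2 < -(5 / 4) * (1 - p.1 ^ 2) ^ 2 ∧
      volume (NS p.1 p.2) = ⊤) := by
  refine ⟨meas_NS, fun a c ha ha1 => vol_NS ha ha1 c, fun a c h => ?_, fun a c ha ha1 hc =>
    ⟨FiveQMain.ns_empty ha ha1 hc, fun z hz => ?_⟩, FiveQMain.question_iff⟩
  · have h0 : volume (Bd a c) = 0 := by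
      rcases h with h | ⟨ha, h⟩
      · exact vol_Bd_zero h c
      · exact vol_Bd_horse ha h
    refine ⟨?_, measure_mono_null (ns_subset_Bd a c) h0⟩
    have e : {z | Bornology.IsBounded (range fun n => (henon a c)^[n] z)} = Bd a c := by
      ext z; exact bounded_iff
    rw [e, h0]
  · obtain ⟨w, h1, h2, -⟩ := FiveQMain.converge ha ha1 hc (bounded_iff.1 hz)
    exact ⟨w, h1, h2⟩

end Pool.Agent.Results.MP_4785e6_an.FiveQuarters
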